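import Pool.Agent.TH131.WCub.Main

/-!
# `p`-adic weight-monodromy for the cohomology with compact supports: definitions
-/

set_option autoImplicit false

open CategoryTheory AlgebraicGeometry

namespace Pool.Agent.TH131.PCub

open Pool.Agent.TH90.Cub Pool.Agent.TH590.JH Pool.Agent.TH131.Near Pool.Agent.TH131.WCub

/-- The `p`-adic cohomology with compact supports of the separated schemes `X` of finite type over
`ℚ`, with its weight filtration. `K p` is the coefficient field, `W(𝔽_p^alg)[1/p]`. -/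
structure PAdic (K : Nat.Primes → Type) [∀ p, Field (K p)] where
  /-- `D_pst` of the graded piece of weight `w` of the weight filtration of the `p`-adic cohomology
  with compact supports `H_c^j(X)`, considered as a representation of the Galois group of `ℚ_p`, with
  the linear Frobenius and the monodromy operator -/
  gr : ∀ (p : Nat.Primes) (j w : ℤ) {X : Scheme.{0}}, (X ⟶ Spec (CommRingCat.of ℚ)) → Rep (K p)
  iso : ∀ (p : Nat.Primes) (j w : ℤ) {X Y : Scheme.{0}} (e : X ≅ Y)
    (g : Y ⟶ Spec (CommRingCat.of ℚ)), FT True ℚ g →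
    IsTwist 0 (gr p j w (e.hom ≫ g)) (gr p j w g)
  empty : ∀ (p : Nat.Primes) (j w : ℤ) {X : Scheme.{0}} (f : X ⟶ Spec (CommRingCat.of ℚ)),
    IsEmpty X → Subsingleton (gr p j w f).V
  /-- the exact sequence `⋯ → H_c^n(X \ Z) → H_c^n(X) → H_c^n(Z) → H_c^{n+1}(X \ Z) → ⋯` -/
  localization : ∀ (p : Nat.Primes) (w : ℤ) {Z X U : Scheme.{0}}
    (f : X ⟶ Spec (CommRingCat.of ℚ)) (i : Z ⟶ X) (j : U ⟶ X), IsPair f i j →
    IsLongExact (fun n => gr p n w (j ≫ f)) (fun n => gr p n w f) (fun n => gr p n w (i ≫ f))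
  /-- `H_c^{n+2}(X × 𝔸¹) = H_c^n(X)(-1)` -/
  line : ∀ (p : Nat.Primes) (n w : ℤ) (A : Type) [CommRing A] [Algebra ℚ A],
    Algebra.FiniteType ℚ A →
    IsTwist 1 (gr p n w (str ℚ A)) (gr p (n + 2) (w + 2) (str ℚ (Polynomial A)))
  /-- `H^n(X)` has weight `n` for `X` smooth and projective -/
  smooth : ∀ (p : Nat.Primes) (n w : ℤ) {X : Scheme.{0}} (f : X ⟶ Spec (CommRingCat.of ℚ)),
    SmoothProjective f → w ≠ n → Subsingleton (gr p n w f).V

namespace PAdic

variable {K : Nat.Primes → Type} [∀ p, Field (K p)] (T : PAdic K)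

/-- For `X` smooth and projective this is `H^n(X)`. -/
abbrev H (p : Nat.Primes) (n : ℤ) {X : Scheme.{0}} (f : X ⟶ Spec (CommRingCat.of ℚ)) :
    Rep (K p) := T.gr p n n f

/-- The `p`-adic monodromy-weight conjecture for `H^n(X)`, `n ≤ 2`, `X` smooth and projective over `ℚ`
(Mokrane, de Jong). -/
def LowDegrees (p : Nat.Primes) : Prop :=
  ∀ (n : ℤ) {X : Scheme.{0}} (f : X ⟶ Spec (CommRingCat.of ℚ)),
    SmoothProjective f → n ≤ 2 → (T.H p n f).IsPure n

/-- The graded pieces of weight `w ≥ 3` of all `H_c^j(C)` are pure of weight `w`, for all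
hypersurfaces `C` over `ℚ` with an equation `g_0 t_0 + ⋯ + g_r t_r = 1`, each `g_i` being of the form
`x_a x_b - x_c`, `x_a + x_b - x_c` or `x_a - 1`. -/
def PureOnCubics (p : Nat.Primes) : Prop :=
  ∀ (n r : ℕ) (g : Fin (r + 1) → MvPolynomial (Fin n) ℚ), (∀ i, IsGate {1} (g i)) →
    ∀ j w : ℤ, 3 ≤ w → (T.gr p j w (str ℚ (Cubic g))).IsPure w

/-- The graded pieces of weight `w` of all `H_c^j(X)` are pure of weight `w`, for all separated
schemes `X` of finite type over `ℚ`. -/
def PureOnAll (p : Nat.Primes) : Prop :=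
  ∀ {X : Scheme.{0}} (f : X ⟶ Spec (CommRingCat.of ℚ)), FT True ℚ f →
    ∀ j w : ℤ, (T.gr p j w f).IsPure w

end PAdic

/-- The smooth proper varieties `Y` over finite extensions of `ℚ_p`, for all primes `p`, with
their `p`-adic cohomology. -/
structure LocalVarieties {K : Nat.Primes → Type} [∀ p, Field (K p)] (T : PAdic K) where
  /-- the varieties over finite extensions of `ℚ_p` -/
  Variety : Nat.Primes → Type 1
  /-- `H^n(Y)`: `D_pst` of the `p`-adic cohomology, or the Hyodo-Kato cohomology with scalars extended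
  to `K p` -/
  H : ∀ p : Nat.Primes, Variety p → ℤ → Rep (K p)
  /-- the base change of a smooth projective `X` over `ℚ` to `ℚ_p` -/
  baseChange : ∀ (p : Nat.Primes) {X : Scheme.{0}} (f : X ⟶ Spec (CommRingCat.of ℚ)),
    SmoothProjective f → ∃ Y : Variety p, ∀ n, IsTwist 0 (H p Y n) (T.H p n f)
  /-- local constancy of the cohomology of the fibres of a family: `Y` may be replaced by a variety
  over a number field, which is considered as a smooth projective scheme `X` over `ℚ` -/
  approximation : ∀ (p : Nat.Primes) (Y : Variety p) (n : ℤ),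
    ∃ (X : Scheme.{0}) (f : X ⟶ Spec (CommRingCat.of ℚ)), SmoothProjective f ∧
      IsSummand (H p Y n) (T.H p n f)

/-- The `p`-adic monodromy-weight conjecture for all smooth proper varieties over finite extensions
of `ℚ_p`. -/
def LocalVarieties.MonodromyWeight {K : Nat.Primes → Type} [∀ p, Field (K p)] {T : PAdic K}
    (L : LocalVarieties T) (p : Nat.Primes) : Prop :=
  ∀ (Y : L.Variety p) (n : ℤ), (L.H p Y n).IsPure n

end Pool.Agent.TH131.PCub
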