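import Pool.Agent.TH131.PCub.Main

/-!
# `p`-adic weight-monodromy and complements of gates
-/

set_option autoImplicit false

open CategoryTheory AlgebraicGeometry

namespace Pool.Agent.TH131.PCub

open Pool.Agent.TH90.Cub Pool.Agent.TH590.JH Pool.Agent.TH131.Near Pool.Agent.TH131.WCub

namespace PAdic

variable {K : Nat.Primes → Type} [∀ p, Field (K p)] (T : PAdic K)

/-- The graded pieces of weight `w ≥ 3` of all `H_c^j(U)` are pure of weight `w`, for the complements
`U` in affine spaces over `ℚ` of finite unions of hypersurfaces with equations `x_a x_b = x_c`,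
`x_a + x_b = x_c` and `x_a = 1`: `U` is the open subset `h ≠ 0`, `h` a product of such
polynomials. -/
def PureOnComplements (p : Nat.Primes) : Prop :=
  ∀ (n : ℕ) (h : MvPolynomial (Fin n) ℚ), h ∈ Submonoid.closure {g | IsGate {1} g} →
    ∀ j w : ℤ, 3 ≤ w → (T.gr p j w (str ℚ (Localization.Away h))).IsPure w

/-- Purity for all schemes follows from purity for the complements in weights at least `3`. -/
theorem pure_of_complements (hres : Resolution) (p : Nat.Primes) (hlow : T.LowDegrees p)
    (h : T.PureOnComplements p)
    {X : Scheme.{0}} (f : X ⟶ Spec (CommRingCat.of ℚ)) (hf : FT True ℚ f) :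
    T.Pure p (fun _ => True) X f := by
  have hP := T.pure_devissage p fun _ => True
  refine all_of_W' (S := {1}) closure_one_rat (Set.mem_singleton 1) hP
    (fun A _ _ Γ => WA (T.Pure p fun _ => True) A Γ) (fun A _ _ Γ hA hW => WA.one hP A Γ hA hW)
    (fun A _ _ Γ g hA hW hg => WA.step hP A Γ g hA hW hg) ?_ f hf
  intro n g hg j w _
  by_cases hw : 3 ≤ w
  · exact h n g hg j w hw
  · exact T.pure_of_smooth hres p (fun w => w ≤ 2) (fun n X f hf hn => hlow n f hf hn)
      (str ℚ (Localization.Away g)) (ft_gate g) j w (by omega)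

end PAdic

/-- The main theorem for complements. -/
theorem main_complements {K : Nat.Primes → Type} [∀ p, Field (K p)] (T : PAdic K)
    (L : LocalVarieties T) (hres : Resolution) (p : Nat.Primes) (hlow : T.LowDegrees p) :
    L.MonodromyWeight p ↔ T.PureOnComplements p := by
  refine ⟨fun h n g _ j w _ => (main T L hres p hlow).2 h _ (ft_gate g) j w, fun h Y n => ?_⟩
  obtain ⟨X, f, hf, hs⟩ := L.approximation p Y n
  exact isPure_of_isSummand hs (T.pure_of_complements hres p hlow h f hf.ft n n trivial)

end Pool.Agent.TH131.PCub
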