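import Pool.Agent.TH131.PCub.Defs

/-!
# `p`-adic weight-monodromy for the cohomology with compact supports: the dévissage
-/

set_option autoImplicit false

open CategoryTheory AlgebraicGeometry

namespace Pool.Agent.TH131.PCub

open Pool.Agent.TH90.Cub Pool.Agent.TH590.JH Pool.Agent.TH131.Near Pool.Agent.TH131.WCub

namespace PAdic

variable {K : Nat.Primes → Type} [∀ p, Field (K p)] (T : PAdic K)

/-- the graded pieces whose weight satisfies `Q` are pure -/
def Pure (p : Nat.Primes) (Q : ℤ → Prop) :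
    ∀ X : Scheme.{0}, (X ⟶ Spec (CommRingCat.of ℚ)) → Prop :=
  fun _ f => ∀ n w : ℤ, Q w → (T.gr p n w f).IsPure w

theorem pure_devissage (p : Nat.Primes) (Q : ℤ → Prop) : IsDevissage True ℚ (T.Pure p Q) where
  iso := by
    intro X Y e g hg hX n w hw
    have := ((T.iso p n w e g hg).isPure_iff w).1 (hX n w hw)
    simpa using this
  empty := by
    intro X f hX n w _
    exact isPure_of_subsingleton _ (T.empty p n w f hX) w
  closed := by
    intro Z X U f i j hf hi hj hr hX hU n w hw
    obtain ⟨a, b, d, hh, hex⟩ := T.localization p w f i j ⟨hf, hi, hj, hr⟩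
    exact isPure_of_exact (hh n).1 (hh n).2.1 (hh n).2.2 (hh (n + 1)).1 (hex n).1 (hex n).2.1
      (hex n).2.2 (hU n w hw) (hX n w hw) (hU (n + 1) w hw) (hX (n + 1) w hw)
  total := by
    intro Z X U f i j hf hi hj hr hZ hU n w hw
    obtain ⟨a, b, d, hh, hex⟩ := T.localization p w f i j ⟨hf, hi, hj, hr⟩
    have h1 : n - 1 + 1 = n := by ring
    have key : ∀ m, m + 1 = n → (T.gr p n w f).IsPure w := by
      rintro m rfl
      exact isPure_of_exact (hh m).2.2 (hh (m + 1)).1 (hh (m + 1)).2.1 (hh (m + 1)).2.2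
        (hex m).2.2 (hex (m + 1)).1 (hex (m + 1)).2.1 (hZ m w hw) (hU (m + 1) w hw)
        (hZ (m + 1) w hw) (hU (m + 1 + 1) w hw)
    exact key (n - 1) h1

theorem pure_open (p : Nat.Primes) (Q : ℤ → Prop) {Z X U : Scheme.{0}} (f : X ⟶ Spec (CommRingCat.of ℚ))
    (i : Z ⟶ X) (j : U ⟶ X) (hp : IsPair f i j) (hX : T.Pure p Q X f)
    (hZ : T.Pure p Q Z (i ≫ f)) : T.Pure p Q U (j ≫ f) := by
  intro n w hw
  obtain ⟨a, b, d, hh, hex⟩ := T.localization p w f i j hp
  have h1 : n - 1 + 1 = n := by ring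
  have key : ∀ m, m + 1 = n → (T.gr p n w (j ≫ f)).IsPure w := by
    rintro m rfl
    exact isPure_of_exact (hh m).2.1 (hh m).2.2 (hh (m + 1)).1 (hh (m + 1)).2.1
      (hex m).2.1 (hex m).2.2 (hex (m + 1)).1 (hX m w hw) (hZ m w hw)
      (hX (m + 1) w hw) (hZ (m + 1) w hw)
  exact key (n - 1) h1

theorem pure_A1 (p : Nat.Primes) : A1 (T.Pure p fun _ => True) := by
  intro A _ _ hA
  constructor
  · intro h n w _
    have h1 := ((T.line p (n - 2) (w - 2) A hA).isPure_iff (w - 2)).1 (h _ _ trivial)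
    have e1 : n - 2 + 2 = n := by ring
    have e2 : w - 2 + 2 = w := by ring
    have e3 : w - 2 + 2 * 1 = w := by ring
    rw [e1, e2, e3] at h1
    exact h1
  · intro h n w _
    have h1 := h (n + 2) (w + 2) trivial
    exact ((T.line p n w A hA).isPure_iff w).2 (by
      have e3 : w + 2 * 1 = w + 2 := by ring
      rw [e3]
      exact h1)

/-- Purity for all schemes follows from purity for smooth projective ones, by resolution of
singularities. -/
theorem pure_of_smooth (hres : Resolution) (p : Nat.Primes) (Q : ℤ → Prop)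
    (h : ∀ (n : ℤ) {X : Scheme.{0}} (f : X ⟶ Spec (CommRingCat.of ℚ)),
      SmoothProjective f → Q n → (T.H p n f).IsPure n)
    {X : Scheme.{0}} (f : X ⟶ Spec (CommRingCat.of ℚ)) (hf : FT True ℚ f) : T.Pure p Q X f := by
  refine hres (T.Pure p Q) (T.pure_devissage p Q) (fun f i j hp hX hZ => T.pure_open p Q f i j hp hX hZ) ?_ f hf
  intro X f hf n w hw
  by_cases hn : w = n
  · subst hn
    exact h w f hf hw
  · exact isPure_of_subsingleton _ (T.smooth p n w f hf hn) w

/-- Purity for all schemes follows from purity for the cubic hypersurfaces in weights at least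
`3`. -/
theorem pure_of_cubics (hres : Resolution) (p : Nat.Primes) (hlow : T.LowDegrees p)
    (h : ∀ (n r : ℕ) (g : Fin (r + 1) → MvPolynomial (Fin n) ℚ), (∀ i, IsGate {1} (g i)) →
      ∀ j w : ℤ, 3 ≤ w → (T.gr p j w (str ℚ (Cubic g))).IsPure w)
    {X : Scheme.{0}} (f : X ⟶ Spec (CommRingCat.of ℚ)) (hf : FT True ℚ f) :
    T.Pure p (fun _ => True) X f := by
  refine all_of_cubics' (S := {1}) closure_one_rat (Set.mem_singleton 1)
    (T.pure_devissage p fun _ => True) (T.pure_A1 p) ?_ f hf
  intro n r g hg j w _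
  by_cases hw : 3 ≤ w
  · exact h n r g hg j w hw
  · exact T.pure_of_smooth hres p (fun w => w ≤ 2) (fun n X f hf hn => hlow n f hf hn)
      (str ℚ (Cubic g)) (ft_hyp g) j w (by omega)

end PAdic

/-- The main theorem. -/
theorem main {K : Nat.Primes → Type} [∀ p, Field (K p)] (T : PAdic K) (L : LocalVarieties T)
    (hres : Resolution) (p : Nat.Primes) (hlow : T.LowDegrees p) :
    (L.MonodromyWeight p ↔ T.PureOnCubics p) ∧ (L.MonodromyWeight p → T.PureOnAll p) := by
  have key : L.MonodromyWeight p → T.PureOnAll p := by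
    intro h X f hf j w
    refine T.pure_of_smooth hres p (fun _ => True) ?_ f hf j w trivial
    intro n X f hf _
    obtain ⟨Y, hiso⟩ := L.baseChange p f hf
    have := ((hiso n).isPure_iff n).1 (h Y n)
    simpa using this
  refine ⟨⟨fun h n r g _ j w _ => key h _ (ft_hyp g) j w, fun h Y n => ?_⟩, key⟩
  obtain ⟨X, f, hf, hs⟩ := L.approximation p Y n
  exact isPure_of_isSummand hs (T.pure_of_cubics hres p hlow h f hf.ft n n trivial)

end Pool.Agent.TH131.PCub
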